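import Mathlib
import Pool.Agent.H793R2.TC.Two

/-!
The convex combination `t λ₁ + (1 - t) λ₂` of the first two Dirichlet eigenvalues at fixed volume:
in every dimension `N ≥ 2` and for every `t ∈ (0, 1]` all minimizers among open sets are connected,
so that `t_conn = 0`.
-/

set_option autoImplicit false
open MeasureTheory Set Metric Filter Topology
open scoped ContDiff ENNReal NNReal

noncomputable section

namespace Pool.Agent.Results.MP_5cce8f_an.OpenSetThreshold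

/-- `ℝ^N` with its Euclidean norm. -/
abbrev E (N : ℕ) := EuclideanSpace ℝ (Fin N)

/-- The `k`-th eigenvalue of the Dirichlet Laplacian on the open set `Ω ⊆ ℝ^N`, counted with
multiplicity, given by the min-max formula over `k`-dimensional spaces of smooth functions with
compact support in `Ω`: the infimum of the real numbers `c` for which there is a `k`-dimensional
space `V` of such functions with `∫ |∇v|² ≤ c ∫ v²` for all `v ∈ V`. -/
def dirichletEigenvalue (N k : ℕ) (Ω : Set (E N)) : ℝ :=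
  sInf {c : ℝ | ∃ V : Submodule ℝ (E N → ℝ), Module.finrank ℝ V = k ∧
    ∀ v ∈ V, ContDiff ℝ ∞ v ∧ HasCompactSupport v ∧ tsupport v ⊆ Ω ∧
      ∫ x, ‖fderiv ℝ v x‖ ^ 2 ≤ c * ∫ x, v x ^ 2}

/-- `F_t(Ω) = t λ₁(Ω) + (1 - t) λ₂(Ω)`. -/
def functional (N : ℕ) (t : ℝ) (Ω : Set (E N)) : ℝ :=
  t * dirichletEigenvalue N 1 Ω + (1 - t) * dirichletEigenvalue N 2 Ω

/-- `Ω` is a minimizer for `t`: it minimizes `F_t` among the open sets of volume `c`. -/
structure IsMinimizer (N : ℕ) (c t : ℝ) (Ω : Set (E N)) : Prop where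
  isOpen : IsOpen Ω
  volume_eq : volume Ω = ENNReal.ofReal c
  le : ∀ Ω' : Set (E N), IsOpen Ω' → volume Ω' = ENNReal.ofReal c →
    functional N t Ω ≤ functional N t Ω'

/-- `u ∈ H¹(ℝ^N)` with weak gradient `G`: `u, G ∈ L²` and there are `φ_j ∈ C_c^∞(ℝ^N)` with
`φ_j → u` and `∇φ_j → G` in `L²`. -/
structure IsSobolev {N : ℕ} (u : E N → ℝ) (G : E N → E N) : Prop where
  memLp : MemLp u 2 volume
  memLp_grad : MemLp G 2 volume
  approx : ∃ φ : ℕ → E N → ℝ, (∀ j, ContDiff ℝ ∞ (φ j) ∧ HasCompactSupport (φ j)) ∧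
    Tendsto (fun j => ∫ x, (u x - φ j x) ^ 2) atTop (𝓝 0) ∧
    Tendsto (fun j => ∫ x, ‖G x - gradient (φ j) x‖ ^ 2) atTop (𝓝 0)

/-- The Sobolev capacity of `A`: the infimum of `∫ (u² + |∇u|²)` over the `u ∈ H¹(ℝ^N)` with
`u ≥ 1` almost everywhere on an open set containing `A`. -/
def capacity {N : ℕ} (A : Set (E N)) : ℝ≥0∞ :=
  ⨅ (u : E N → ℝ) (G : E N → E N) (_ : IsSobolev u G)
    (_ : ∃ U : Set (E N), IsOpen U ∧ A ⊆ U ∧ ∀ᵐ x, x ∈ U → 1 ≤ u x),
    ENNReal.ofReal (∫ x, (u x ^ 2 + ‖G x‖ ^ 2))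

/-- `Ω` coincides, up to a set of zero capacity, with a connected open set. -/
def ConnectedUpToCapacity {N : ℕ} (Ω : Set (E N)) : Prop :=
  ∃ Ω' : Set (E N), IsOpen Ω' ∧ IsConnected Ω' ∧ capacity (symmDiff Ω Ω') = 0

/-- `t_conn`: the infimum of the `s ∈ [0, 1]` such that for every `t ∈ [s, 1]` every minimizer for
`t` is connected (up to a set of zero capacity). -/
def tConn (N : ℕ) (c : ℝ) : ℝ :=
  sInf {s : ℝ | s ∈ Icc (0 : ℝ) 1 ∧ ∀ t ∈ Icc s 1, ∀ Ω : Set (E N), IsMinimizer N c t Ω →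
    ConnectedUpToCapacity Ω}

lemma capacity_empty {N : ℕ} : capacity (∅ : Set (E N)) = 0 := by
  rw [← nonpos_iff_eq_zero]
  have h : IsSobolev (fun _ : E N => (0 : ℝ)) (fun _ => 0) := by
    refine ⟨MemLp.zero', MemLp.zero', fun _ _ => 0, fun j => ⟨contDiff_const, HasCompactSupport.zero⟩, ?_, ?_⟩
    · simp
    · have : ∀ x : E N, gradient (fun _ : E N => (0 : ℝ)) x = 0 := fun x => by
        unfold gradient; simp
      simp [this]
  unfold capacity
  refine iInf_le_of_le (fun _ => 0) (iInf_le_of_le (fun _ => 0) (iInf_le_of_le h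
    (iInf_le_of_le ⟨∅, isOpen_empty, subset_rfl, Eventually.of_forall fun x hx => hx.elim⟩ ?_)))
  simp

/-- **Main result.** Let `N ≥ 2` and `c > 0`. For every `t ∈ (0, 1]`, every minimizer of
`t λ₁ + (1 - t) λ₂` among the open sets of volume `c` is connected; and `t_conn = 0`. -/
theorem result (N : ℕ) (hN : 2 ≤ N) (c : ℝ) (hc : 0 < c) :
    (∀ t ∈ Ioc (0 : ℝ) 1, ∀ Ω : Set (E N), IsMinimizer N c t Ω → IsConnected Ω) ∧
      tConn N c = 0 := by
  have key : ∀ t ∈ Ioc (0 : ℝ) 1, ∀ Ω : Set (E N), IsMinimizer N c t Ω → IsConnected Ω := by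
    intro t ht Ω hΩ
    have hne : Ω.Nonempty := by
      rw [nonempty_iff_ne_empty]
      rintro rfl
      have := hΩ.volume_eq
      rw [measure_empty] at this
      exact (ENNReal.ofReal_pos.2 hc).ne this
    refine ⟨hne, ?_⟩
    by_contra hcon
    unfold IsPreconnected at hcon
    push Not at hcon
    obtain ⟨u, v, hu, hv, hcov, h1, h2, h3⟩ := hcon
    set U : Set (E N) := Ω ∩ u with hU
    set V : Set (E N) := Ω ∩ v with hV
    have hUV : U ∪ V = Ω := by
      rw [hU, hV, ← inter_union_distrib_left]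
      exact inter_eq_left.2 hcov
    have hd : Disjoint U V := by
      rw [Set.disjoint_left]
      rintro x ⟨hx1, hx2⟩ ⟨-, hx3⟩
      have : x ∈ Ω ∩ (u ∩ v) := ⟨hx1, hx2, hx3⟩
      rw [h3] at this
      exact this
    obtain ⟨Ω', ho, hvol, hlt⟩ := H793R2.TC.not_minimal hN ht.1 ht.2 (hΩ.isOpen.inter hu)
      (hΩ.isOpen.inter hv) h1 h2 hd (by rw [hUV, hΩ.volume_eq]; exact ENNReal.ofReal_ne_top)
    rw [hUV] at hvol hlt
    have := hΩ.le Ω' ho (hvol.trans hΩ.volume_eq)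
    exact absurd this (not_le.2 hlt)
  refine ⟨key, ?_⟩
  unfold tConn
  have hsub : Ioc (0 : ℝ) 1 ⊆ {s : ℝ | s ∈ Icc (0 : ℝ) 1 ∧ ∀ t ∈ Icc s 1, ∀ Ω : Set (E N),
      IsMinimizer N c t Ω → ConnectedUpToCapacity Ω} := by
    intro s hs
    refine ⟨⟨hs.1.le, hs.2⟩, fun t ht Ω hΩ => ⟨Ω, hΩ.isOpen, key t ⟨hs.1.trans_le ht.1, ht.2⟩ Ω hΩ, ?_⟩⟩
    rw [symmDiff_self]
    exact capacity_empty
  apply le_antisymm
  · refine le_of_forall_pos_le_add fun ε hε => ?_
    have h1 : min ε 1 ∈ Ioc (0 : ℝ) 1 := ⟨by positivity, min_le_right _ _⟩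
    have h2 := csInf_le ⟨0, fun s hs => hs.1.1⟩ (hsub h1)
    linarith [min_le_left ε 1]
  · exact Real.sInf_nonneg fun s hs => hs.1.1

end Pool.Agent.Results.MP_5cce8f_an.OpenSetThreshold
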